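import Mathlib
import Pool.Agent.H629R2.EU.Defs

set_option autoImplicit false

/-! Entire solutions of `u_11 u_22 = 1`: sharp growth version. Statements. -/

namespace Pool.Agent.H629R2.EY

open MeasureTheory Set Pool.Agent.H629R2.EU

/-- CUTQ: quantitative cut-off functions. -/
def CUTQ_stmt : Prop :=
  ∃ E0 : ℝ, 0 < E0 ∧ ∀ R : ℝ, 1 ≤ R → ∀ N : ℕ, 1 ≤ N → ∃ η : ℝ × ℝ → ℝ, ContDiff ℝ 1 η ∧
    HasCompactSupport η ∧ (∀ p, 0 ≤ η p) ∧ (∀ p, η p ≤ 1) ∧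
    (∀ p : ℝ × ℝ, |p.1| ≤ R → |p.2| ≤ R → η p = 1) ∧
    (∀ p : ℝ × ℝ, η p ≠ 0 → |p.1| ≤ R * 4 ^ (N + 1) ∧ |p.2| ≤ R * 4 ^ (N + 1)) ∧
    ∫ p, (dx η p ^ 2 + dy η p ^ 2) ≤ E0 / N

/-- LOCG: if `u_12 = o(log R)` on the set `a1 < u_11 < a2` (along a sequence of radii), then
`u_11` and `u_12` are locally independent of the first variable there. -/
def LOCG_stmt : Prop :=
  ∀ (u : ℝ × ℝ → ℝ) (a1 a2 : ℝ), EntireSol u → 0 < a1 → a1 < a2 →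
    (∀ ε R0 : ℝ, 0 < ε → ∃ R : ℝ, R0 ≤ R ∧ ∀ p : ℝ × ℝ, |p.1| ≤ R → |p.2| ≤ R →
      a1 < dx (dx u) p → dx (dx u) p < a2 → |dx (dy u) p| ≤ ε * Real.log R) →
    ∀ z0 : ℝ × ℝ, a1 < dx (dx u) z0 → dx (dx u) z0 < a2 →
      ∃ r : ℝ, 0 < r ∧ ∀ x x' y : ℝ, |x - z0.1| < r → |x' - z0.1| < r → |y - z0.2| < r →
        dx (dx u) (x, y) = dx (dx u) (x', y) ∧ dx (dy u) (x, y) = dx (dy u) (x', y)

end Pool.Agent.H629R2.EY
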