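import Mathlib
import Pool.Agent.H629R2.EU.CUT
import Pool.Agent.H629R2.EY.Stubs

set_option autoImplicit false

namespace Pool.Agent.H629R2.EY

open MeasureTheory Set Pool.Agent.H629R2.EU

theorem CUTQ_proof : CUTQ_stmt := by
  set I := ∫ q, cutE q with hI
  have hI0 : 0 ≤ I := integral_nonneg fun q => by unfold cutE; positivity
  refine ⟨I + 1, by linarith, ?_⟩
  intro R hR1 N hN1
  set R' := max R 1 with hR'
  have hR'0 : 0 < R' := lt_of_lt_of_le one_pos (le_max_right _ _)
  have hN0 : (0:ℝ) < N := by exact_mod_cast hN1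
  set l : ℕ → ℝ := fun j => R' * 4 ^ j with hl
  have hl0 : ∀ j, 0 < l j := fun j => by simp only [hl]; positivity
  have hlt : ∀ j k, j < k → 2 * l j < l k := by
    intro j k hjk
    simp only [hl]
    have h1 : (4:ℝ) ^ (j + 1) ≤ 4 ^ k := pow_le_pow_right₀ (by norm_num) hjk
    have h2 : R' * (4:ℝ) ^ (j + 1) ≤ R' * 4 ^ k := mul_le_mul_of_nonneg_left h1 hR'0.le
    have h3 : 0 < R' * (4:ℝ) ^ j := by positivity
    rw [pow_succ] at h2
    linarith
  have hcross : ∀ (p v : ℝ × ℝ) (j k : ℕ), j ≠ k →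
      fderiv ℝ (cutS (l j)) p v * fderiv ℝ (cutS (l k)) p v = 0 := by
    intro p v j k hjk
    rcases lt_or_gt_of_ne hjk with h | h
    · exact cut_disj (hl0 j) (hlt j k h) p v v
    · rw [mul_comm]
      exact cut_disj (hl0 k) (hlt k j h) p v v
  set η : ℝ × ℝ → ℝ := fun p => (N:ℝ)⁻¹ * ∑ j ∈ Finset.range N, cutS (l j) p with hη
  have hfd : ∀ p v, fderiv ℝ η p v =
      (N:ℝ)⁻¹ * ∑ j ∈ Finset.range N, fderiv ℝ (cutS (l j)) p v := by
    intro p v
    have h1 : HasFDerivAt (fun p => ∑ j ∈ Finset.range N, cutS (l j) p)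
        (∑ j ∈ Finset.range N, fderiv ℝ (cutS (l j)) p) p :=
      HasFDerivAt.fun_sum fun j _ => (cutS_hasFDerivAt (l j) p).differentiableAt.hasFDerivAt
    have h2 := h1.const_mul (N:ℝ)⁻¹
    rw [h2.fderiv]
    simp [ContinuousLinearMap.sum_apply]
  have hsupp : ∀ p : ℝ × ℝ, 2 * l N < ‖p‖ → ∑ j ∈ Finset.range N, cutS (l j) p = 0 := by
    intro p hp
    refine Finset.sum_eq_zero fun j hj => ?_
    refine cutB.zero_of_le_dist ?_
    rw [dist_zero_right, norm_smul, norm_inv, Real.norm_eq_abs, abs_of_pos (hl0 j),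
      le_inv_mul_iff₀ (hl0 j)]
    have h2 := hlt j N (Finset.mem_range.mp hj)
    have h3 := hl0 j
    have h4 : cutB.rOut = 2 := rfl
    rw [h4]
    linarith
  refine ⟨η, ?_, ?_, ?_, ?_, ?_, ?_, ?_⟩
  · exact contDiff_const.mul (ContDiff.sum fun j _ => cutS_contDiff (l j))
  · refine HasCompactSupport.intro (isCompact_closedBall (0 : ℝ × ℝ) (2 * l N)) fun p hp => ?_
    rw [mem_closedBall_zero_iff, not_le] at hp
    have h1 : ∑ j ∈ Finset.range N, cutS (l j) p = 0 := by
      refine Finset.sum_eq_zero fun j hj => ?_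
      refine cutB.zero_of_le_dist ?_
      rw [dist_zero_right, norm_smul, norm_inv, Real.norm_eq_abs, abs_of_pos (hl0 j),
        le_inv_mul_iff₀ (hl0 j)]
      have h2 := hlt j N (Finset.mem_range.mp hj)
      have h3 := hl0 j
      have h4 : cutB.rOut = 2 := rfl
      rw [h4]
      linarith
    simp only [hη, h1, mul_zero]
  · intro p
    exact mul_nonneg (by positivity) (Finset.sum_nonneg fun j _ => cutB.nonneg)
  · intro p
    have h1 : ∑ j ∈ Finset.range N, cutS (l j) p ≤ ∑ j ∈ Finset.range N, (1:ℝ) :=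
      Finset.sum_le_sum fun j _ => cutB.le_one
    rw [Finset.sum_const, Finset.card_range, nsmul_eq_mul, mul_one] at h1
    simp only [hη]
    rw [inv_mul_le_iff₀ hN0, mul_one]
    exact h1
  · intro p hp1 hp2
    have hp : ‖p‖ ≤ R := by
      rw [Prod.norm_def]
      exact max_le hp1 hp2
    have h1 : ∑ j ∈ Finset.range N, cutS (l j) p = ∑ j ∈ Finset.range N, (1:ℝ) := by
      refine Finset.sum_congr rfl fun j _ => ?_
      refine cutB.one_of_mem_closedBall ?_
      rw [mem_closedBall_zero_iff, norm_smul, norm_inv, Real.norm_eq_abs, abs_of_pos (hl0 j),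
        inv_mul_le_iff₀ (hl0 j)]
      have h4 : cutB.rIn = 1 := rfl
      have h5 : R' ≤ l j := by
        simp only [hl]
        exact le_mul_of_one_le_right hR'0.le (one_le_pow₀ (by norm_num))
      have h6 : R ≤ R' := le_max_left _ _
      rw [h4]
      linarith
    rw [Finset.sum_const, Finset.card_range, nsmul_eq_mul, mul_one] at h1
    simp only [hη]
    rw [h1, inv_mul_cancel₀ hN0.ne']
  · intro p hp
    have h1 : ‖p‖ ≤ 2 * l N := by
      by_contra hcon
      exact hp (by simp only [hη]; rw [hsupp p (not_le.1 hcon), mul_zero])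
    have hRR : R' = R := max_eq_left hR1
    have h2 : 2 * l N ≤ R * 4 ^ (N + 1) := by
      simp only [hl]
      rw [hRR, pow_succ]
      have : 0 < R * (4:ℝ) ^ N := by positivity
      nlinarith
    have h3 := h1.trans h2
    rw [Prod.norm_def, max_le_iff, Real.norm_eq_abs, Real.norm_eq_abs] at h3
    exact h3
  · have h1 : ∀ p, dx η p ^ 2 + dy η p ^ 2 = ((N:ℝ)⁻¹) ^ 2 *
        ∑ j ∈ Finset.range N, (dx (cutS (l j)) p ^ 2 + dy (cutS (l j)) p ^ 2) := by
      intro p
      unfold dx dy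
      rw [hfd, hfd, mul_pow, mul_pow, cut_sq N _ (hcross p _), cut_sq N _ (hcross p _),
        Finset.sum_add_distrib, mul_add]
    simp only [h1]
    rw [integral_const_mul, integral_finset_sum _ fun j _ => (cutS_int (hl0 j)).1]
    simp only [(cutS_int (hl0 _)).2]
    rw [Finset.sum_const, Finset.card_range, nsmul_eq_mul, ← hI]
    have h2 : ((N:ℝ)⁻¹) ^ 2 * (N * I) = I / N := by
      field_simp
    rw [h2]
    exact div_le_div_of_nonneg_right (by linarith) hN0.le

end Pool.Agent.H629R2.EY
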