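import Mathlib
import Pool.Agent.H629R2.EU.Stubs
import Pool.Agent.H629R2.EU.LOC
import Pool.Agent.H629R2.EY.Stubs

set_option autoImplicit false

namespace Pool.Agent.H629R2.EY

open MeasureTheory Set Pool.Agent.H629R2.EU

noncomputable def PLf (L t : ℝ) : ℝ := (Real.arctan t + t / L) / (4 * L)

noncomputable def PLd (L t : ℝ) : ℝ := (1 / (1 + t ^ 2) + 1 / L) / (4 * L)

theorem PLf_deriv (L : ℝ) (_ : 0 < L) (t : ℝ) : HasDerivAt (PLf L) (PLd L t) t := by
  unfold PLf PLd
  exact ((Real.hasDerivAt_arctan t).add ((hasDerivAt_id t).div_const L)).div_const (4 * L)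

theorem PLd_cont (L : ℝ) : Continuous (PLd L) := by
  unfold PLd
  have : Continuous (fun t : ℝ => 1 / (1 + t ^ 2)) :=
    continuous_const.div (by fun_prop) (fun t => by positivity)
  exact (this.add continuous_const).div_const _

theorem PLd_nonneg (L : ℝ) (hL : 0 < L) (t : ℝ) : 0 ≤ PLd L t := by
  unfold PLd
  positivity

theorem PLd_lower (L T : ℝ) (hL : 0 < L) (t : ℝ) (ht : |t| ≤ T) :
    1 / (4 * L * (1 + T ^ 2)) ≤ PLd L t := by
  unfold PLd
  have h1 : t ^ 2 ≤ T ^ 2 := by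
    rw [← sq_abs t]
    exact pow_le_pow_left₀ (abs_nonneg _) ht 2
  have h2 : 1 / (1 + T ^ 2) ≤ 1 / (1 + t ^ 2) :=
    one_div_le_one_div_of_le (by positivity) (by linarith)
  have h3 : 0 < 1 / L := by positivity
  have h4 : 1 / (4 * L * (1 + T ^ 2)) = 1 / (1 + T ^ 2) / (4 * L) := by
    field_simp
  rw [h4]
  exact div_le_div_of_nonneg_right (by linarith) (by positivity)

theorem PLf_sq (L : ℝ) (hL : 1 ≤ L) (t : ℝ) (ht : |t| ≤ L) : PLf L t ^ 2 ≤ 2 * PLd L t := by
  have hL0 : 0 < L := by linarith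
  have h1 : |Real.arctan t| ≤ 1.6 := by
    have h2 := Real.arctan_lt_pi_div_two t
    have h3 := Real.neg_pi_div_two_lt_arctan t
    have h4 := Real.pi_lt_d2
    rw [abs_le]
    constructor <;> linarith
  have h2 : |t / L| ≤ 1 := by
    rw [abs_div, abs_of_pos hL0, div_le_one hL0]
    exact ht
  have h3 : |Real.arctan t + t / L| ≤ 2.6 := by
    refine (abs_add_le _ _).trans ?_
    linarith
  have h4 : (Real.arctan t + t / L) ^ 2 ≤ 8 := by
    rw [← sq_abs]
    nlinarith [abs_nonneg (Real.arctan t + t / L)]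
  unfold PLf PLd
  have h5 : 0 < 1 / (1 + t ^ 2) := by positivity
  rw [div_pow]
  have h6 : (Real.arctan t + t / L) ^ 2 / (4 * L) ^ 2 ≤ 8 / (4 * L) ^ 2 :=
    div_le_div_of_nonneg_right h4 (by positivity)
  have h7 : 8 / (4 * L) ^ 2 = 2 * ((1 / L) / (4 * L)) := by
    field_simp
    ring
  have h8 : (1 / L) / (4 * L) ≤ (1 / (1 + t ^ 2) + 1 / L) / (4 * L) :=
    div_le_div_of_nonneg_right (by linarith) (by positivity)
  linarith

theorem exists_N (R R2 : ℝ) (hR : 1 ≤ R) (hR2 : 0 < R2) (h : 2 * Real.log R + 8 ≤ Real.log R2) :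
    ∃ N : ℕ, 1 ≤ N ∧ Real.log R2 / 4 ≤ N ∧ R * 4 ^ (N + 1) ≤ R2 := by
  have hlR : 0 ≤ Real.log R := Real.log_nonneg hR
  refine ⟨⌈Real.log R2 / 4⌉₊, ?_, Nat.le_ceil _, ?_⟩
  · rw [Nat.one_le_ceil_iff]
    linarith
  · have h1 : (⌈Real.log R2 / 4⌉₊ : ℝ) < Real.log R2 / 4 + 1 := Nat.ceil_lt_add_one (by linarith)
    have hR0 : 0 < R := by linarith
    have h2 : R * 4 ^ (⌈Real.log R2 / 4⌉₊ + 1) =
        Real.exp (Real.log R + (⌈Real.log R2 / 4⌉₊ + 1) * Real.log 4) := by
      rw [Real.exp_add, Real.exp_log hR0]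
      congr 1
      have : ((⌈Real.log R2 / 4⌉₊ : ℝ) + 1) = ((⌈Real.log R2 / 4⌉₊ + 1 : ℕ) : ℝ) := by push_cast; ring
      rw [this, mul_comm, Real.exp_mul, Real.exp_log (by norm_num : (0:ℝ) < 4), Real.rpow_natCast]
    rw [h2, ← Real.le_log_iff_exp_le hR2]
    have h3 : Real.log 4 ≤ 2 := by
      have : Real.log 4 = 2 * Real.log 2 := by
        rw [show (4:ℝ) = 2 ^ 2 by norm_num, Real.log_pow]; norm_num
      have := Real.log_two_lt_d9
      linarith
    have h4 : 0 ≤ Real.log 4 := Real.log_nonneg (by norm_num)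
    have h5 : (⌈Real.log R2 / 4⌉₊ + 1 : ℝ) * Real.log 4 ≤ (Real.log R2 / 4 + 2) * 2 := by
      apply mul_le_mul _ h3 h4 (by linarith)
      linarith
    linarith

theorem final_bound (B ε l L N : ℝ) (hB : 0 < B) (hε : 0 < ε) (hl : 0 < l)
    (hL : L = ε / (8 * B) * l + 1) (h : 8 * B / ε ≤ l) (hN : l / 4 ≤ N) (hNp : 0 < N) :
    L / N ≤ ε / B := by
  rw [div_le_div_iff₀ hNp hB, hL]
  have h1 : 8 * B ≤ l * ε := by rwa [div_le_iff₀ hε] at h
  have h2 : (ε / (8 * B) * l + 1) * B = ε * l / 8 + B := by field_simp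
  rw [h2]
  nlinarith

open LOCaux in
theorem LOCG_proof (hC : CUTQ_stmt) (hE : ENE_stmt) (hU : UNI_stmt) (hV : UNC_stmt)
    (hA : CAL_stmt) (hT : TEL_stmt) : LOCG_stmt := by
  obtain ⟨E0, hE0, hC⟩ := hC
  intro u a1 a2 hu ha1 ha12 hgr z0 hz1 hz2
  have hu2 := hu.1
  have hcal := hA u 1 hu2 one_ne_zero
  have hdxu : ContDiff ℝ 1 (dx u) := hcal.2.2.1
  have hdyu : ContDiff ℝ 1 (dy u) := hcal.2.2.2.1
  have hc11 : Continuous (dx (dx u)) := dx_cont _ hdxu
  have hc12 : Continuous (dx (dy u)) := dx_cont _ hdyu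
  set q0 := dx (dx u) z0 with hq0
  set al := (a1 + q0) / 2 with hal
  set be := (a2 + q0) / 2 with hbe
  set M := (be - al) ^ 2 with hM
  -- the box
  obtain ⟨r, hr, hbox⟩ : ∃ r : ℝ, 0 < r ∧ ∀ p ∈ Icc (z0.1 - r) (z0.1 + r) ×ˢ
      Icc (z0.2 - r) (z0.2 + r), (al + q0) / 2 < dx (dx u) p ∧ dx (dx u) p < (be + q0) / 2 := by
    have hopen : IsOpen {p | (al + q0) / 2 < dx (dx u) p ∧ dx (dx u) p < (be + q0) / 2} :=
      (isOpen_lt continuous_const hc11).inter (isOpen_lt hc11 continuous_const)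
    have hmem : z0 ∈ {p | (al + q0) / 2 < dx (dx u) p ∧ dx (dx u) p < (be + q0) / 2} := by
      constructor
      · show (al + q0) / 2 < q0
        rw [hal]; linarith
      · show q0 < (be + q0) / 2
        rw [hbe]; linarith
    obtain ⟨r0, hr0, hb⟩ := Metric.isOpen_iff.1 hopen z0 hmem
    refine ⟨r0 / 2, by positivity, ?_⟩
    rintro ⟨x, y⟩ ⟨⟨h1, h2⟩, h3, h4⟩
    apply hb
    rw [Metric.mem_ball, Prod.dist_eq, Real.dist_eq, Real.dist_eq]
    simp only at h1 h2 h3 h4 ⊢
    apply max_lt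
    · rw [abs_lt]; constructor <;> linarith
    · rw [abs_lt]; constructor <;> linarith
  set S := Icc (z0.1 - r) (z0.1 + r) ×ˢ Icc (z0.2 - r) (z0.2 + r) with hS
  have hScomp : IsCompact S := isCompact_Icc.prod isCompact_Icc
  have hSmeas : MeasurableSet S := hScomp.measurableSet
  obtain ⟨S0, hS0⟩ := hScomp.exists_bound_of_continuousOn
    (f := fun p => dx (dy u) p) hc12.continuousOn
  have hS00 : 0 ≤ S0 := by
    have hz : z0 ∈ S := by
      rw [hS]
      exact ⟨⟨by linarith, by linarith⟩, ⟨by linarith, by linarith⟩⟩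
    exact (norm_nonneg _).trans (hS0 z0 hz)
  set R := |z0.1| + |z0.2| + r + 1 with hR
  have hR1 : 1 ≤ R := by
    have g1 := abs_nonneg z0.1
    have g2 := abs_nonneg z0.2
    rw [hR]; linarith
  have hSR : ∀ p ∈ S, |p.1| ≤ R ∧ |p.2| ≤ R := by
    rintro ⟨x, y⟩ ⟨⟨h1, h2⟩, h3, h4⟩
    simp only at h1 h2 h3 h4 ⊢
    have g1 := abs_nonneg z0.1
    have g2 := abs_nonneg z0.2
    have g3 := le_abs_self z0.1
    have g4 := le_abs_self z0.2
    have g5 := neg_abs_le z0.1
    have g6 := neg_abs_le z0.2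
    constructor <;> rw [abs_le] <;> constructor <;> linarith
  set c1 := (q0 - al) / 4 * ((be - q0) / 4) with hc1
  have hc1p : 0 < c1 := by
    apply mul_pos
    · rw [hal]; linarith
    · rw [hbe]; linarith
  set T := S0 + 1 with hTd
  set A2 := a2 * (a2 + 1) with hA2
  have hA2p : 0 < A2 := by
    have : 0 < a2 := ha1.trans ha12
    positivity
  set K := 2 * (1 + A2) with hK
  set C0 := (1 + A2) / c1 * (4 * (1 + T ^ 2)) with hC0d
  have hC0p : 0 < C0 := by positivity
  set τ := min (min ((q0 - al) / 4) ((be - q0) / 4)) (min (min (al - a1) (a2 - be)) 1) with hτ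
  have hτp : 0 < τ := by
    rw [hτ]
    refine lt_min (lt_min ?_ ?_) (lt_min (lt_min ?_ ?_) one_pos)
    · rw [hal]; linarith
    · rw [hbe]; linarith
    · rw [hal]; linarith
    · rw [hbe]; linarith
  have hτ1 : τ ≤ (q0 - al) / 4 := (min_le_left _ _).trans (min_le_left _ _)
  have hτ2 : τ ≤ (be - q0) / 4 := (min_le_left _ _).trans (min_le_right _ _)
  have hτ3 : τ ≤ al - a1 := (min_le_right _ _).trans ((min_le_left _ _).trans (min_le_left _ _))
  have hτ4 : τ ≤ a2 - be := (min_le_right _ _).trans ((min_le_left _ _).trans (min_le_right _ _))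
  have hτ5 : τ ≤ 1 := (min_le_right _ _).trans (min_le_right _ _)
  have hMn : 0 ≤ M := by rw [hM]; positivity
  -- the main claim
  have claim : ∀ ε : ℝ, 0 < ε → ∃ h0 : ℝ, 0 < h0 ∧ ∀ h : ℝ, 0 < h → h < h0 →
      ∫ p in S, ((qx h (dx (dx u)) p) ^ 2 + (qx h (dx (dy u)) p) ^ 2) ≤ ε := by
    intro ε hε
    set Bc := C0 * (4 * K * M) * E0 with hBc
    have hBc0 : 0 ≤ Bc := by positivity
    set ε1 := ε / (8 * (Bc + 1)) with hε1
    have hε1p : 0 < ε1 := by positivity
    obtain ⟨R2, hR2, hgR⟩ := hgr ε1 (Real.exp (max (2 * Real.log R + 8) (8 * (Bc + 1) / ε))) hε1p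
    have hR2p : 0 < R2 := (Real.exp_pos _).trans_le hR2
    have hlog : max (2 * Real.log R + 8) (8 * (Bc + 1) / ε) ≤ Real.log R2 := by
      rw [Real.le_log_iff_exp_le hR2p]
      exact hR2
    have hlog1 : 2 * Real.log R + 8 ≤ Real.log R2 := (le_max_left _ _).trans hlog
    have hlog2 : 8 * (Bc + 1) / ε ≤ Real.log R2 := (le_max_right _ _).trans hlog
    have hlogR : 0 ≤ Real.log R := Real.log_nonneg hR1
    have hlogp : 0 < Real.log R2 := by linarith
    obtain ⟨N, hN1, hN2, hN3⟩ := exists_N R R2 hR1 hR2p hlog1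
    have hNp : (0:ℝ) < N := by exact_mod_cast hN1
    obtain ⟨η, hη1, hηc, hη0, hηle, hηR, hηsup, hηE⟩ := hC R hR1 N hN1
    set L := ε1 * Real.log R2 + 1 with hL
    have hL1 : 1 ≤ L := by
      have : 0 ≤ ε1 * Real.log R2 := by positivity
      linarith
    have hL0 : 0 < L := by linarith
    set C := C0 * L with hCd
    have hCp : 0 < C := by positivity
    set c2 := 1 / (4 * L * (1 + T ^ 2)) with hc2
    have hc2p : 0 < c2 := by positivity
    have hRR2 : R ≤ R2 := by
      refine le_trans ?_ hN3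
      exact le_mul_of_one_le_right (by linarith) (one_le_pow₀ (by norm_num))
    obtain ⟨ha, hha, H1⟩ := hU (dx u) R2 τ hdxu hτp
    obtain ⟨hb, hhb, H2⟩ := hU (dy u) R2 τ hdyu hτp
    obtain ⟨hc, hhc, H3⟩ := hV (dx (dx u)) R2 1 hc11 one_pos
    refine ⟨min ha (min hb hc), lt_min hha (lt_min hhb hhc), ?_⟩
    intro h hh0 hh
    have hh1 : h < ha := hh.trans_le (min_le_left _ _)
    have hh2 : h < hb := hh.trans_le ((min_le_right _ _).trans (min_le_left _ _))
    have hh3 : h < hc := hh.trans_le ((min_le_right _ _).trans (min_le_right _ _))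
    obtain ⟨hv2, -, -, -, -, hvx, hvy, -, -, hvxx, hvyy, hvxy, -, -, -⟩ := hA u h hu2 hh0.ne'
    set v := qx h u with hv
    have hcalv := hA v 1 hv2 one_ne_zero
    have hdxv : ContDiff ℝ 1 (dx v) := hcalv.2.2.1
    have hdyv : ContDiff ℝ 1 (dy v) := hcalv.2.2.2.1
    have hD0 : ∀ p, 0 ≤ dx (dy v) p ^ 2 - dx (dx v) p * dy (dy v) p := by
      intro p
      rw [hvxx, hvyy]
      unfold qx
      exact (ptw _ _ _ _ h _ 0 (u11_pos u hu _) (u11_pos u hu _) (hu.2.2.2 _) (hu.2.2.2 _)).1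
    have hD1 : ∀ p, |p.1| ≤ R2 → |p.2| ≤ R2 → dx (dx u) p < a2 →
        dx (dy v) p ^ 2 + dx (dx v) p ^ 2 ≤
          (1 + A2) * (dx (dy v) p ^ 2 - dx (dx v) p * dy (dy v) p) := by
      intro p hp1 hp2 hpa
      rw [hvxx, hvyy]
      unfold qx
      refine (ptw _ _ _ _ h _ A2 (u11_pos u hu _) (u11_pos u hu _) (hu.2.2.2 _)
        (hu.2.2.2 _)).2 ?_
      have h4 := (abs_le.1 (H3 h hh0 hh3 p hp1 hp2).1).2
      have h5 : dx (dx u) (p.1 + h, p.2) ≤ a2 + 1 := by linarith
      exact mul_le_mul hpa.le h5 (u11_pos u hu _).le (ha1.trans ha12).le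
    -- the support
    have hsup : ∀ p, η p ≠ 0 → |p.1| ≤ R2 ∧ |p.2| ≤ R2 := by
      intro p hp
      have h5 := hηsup p hp
      exact ⟨h5.1.trans hN3, h5.2.trans hN3⟩
    have hkey : ∀ p, |p.1| ≤ R2 → |p.2| ≤ R2 → kf al be (dx v p) ≠ 0 →
        a1 < dx (dx u) p ∧ dx (dx u) p < a2 ∧ |dy v p| ≤ L := by
      intro p hp1 hp2 hk
      have hab : al < be := by rw [hal, hbe]; linarith
      obtain ⟨h4, h5⟩ := kf_ne al be _ hab hk
      have h6 := abs_le.1 (H1 h hh0 hh1 p hp1 hp2).1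
      have h7 := (H2 h hh0 hh2 p hp1 hp2).1
      rw [hvx] at h4 h5
      have h8 : a1 < dx (dx u) p := by linarith [h6.1, h6.2]
      have h9 : dx (dx u) p < a2 := by linarith [h6.1, h6.2]
      refine ⟨h8, h9, ?_⟩
      have h10 := hgR p hp1 hp2 h8 h9
      rw [hvy]
      have h11 : |qx h (dy u) p| ≤ |dx (dy u) p| + |qx h (dy u) p - dx (dy u) p| := by
        have : qx h (dy u) p = dx (dy u) p + (qx h (dy u) p - dx (dy u) p) := by ring
        calc |qx h (dy u) p| = |dx (dy u) p + (qx h (dy u) p - dx (dy u) p)| := by rw [← this]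
          _ ≤ _ := abs_add_le _ _
      rw [hL]
      linarith
    -- the energy
    set F : ℝ × ℝ → ℝ := fun p => η p ^ 2 * (PLd L (dy v p) * kf al be (dx v p) *
        (dx (dy v) p ^ 2 - dx (dx v) p * dy (dy v) p)) with hF
    have hF0 : ∀ p, 0 ≤ F p := by
      intro p
      rw [hF]
      by_cases h4 : η p = 0
      · simp [h4]
      by_cases h5 : kf al be (dx v p) = 0
      · simp [h5]
      obtain ⟨h6, h7⟩ := hsup p h4
      exact mul_nonneg (sq_nonneg _) (mul_nonneg (mul_nonneg (PLd_nonneg L hL0 _)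
        (kf_nonneg _ _ _)) (hD0 p))
    have hFE : ∫ p, F p ≤ 4 * K * M * ∫ p, (dx η p ^ 2 + dy η p ^ 2) := by
      refine hE v η (PLf L) (PLd L) (fun t => ∫ s in (0 : ℝ)..t, kf al be s) (kf al be) K M
        hv2 hη1 hηc (PLf_deriv L hL0) (PLd_cont L) ?_ (kf_cont al be) (kf_nonneg al be)
        (kf_le al be) (by positivity) ?_
      · intro t
        exact intervalIntegral.integral_hasDerivAt_right
          ((kf_cont al be).intervalIntegrable _ _)
          ((kf_cont al be).stronglyMeasurableAtFilter _ _) (kf_cont al be).continuousAt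
      · intro p h4 h5
        obtain ⟨h6, h7⟩ := hsup p h4
        obtain ⟨h8, h9, h10⟩ := hkey p h6 h7 h5
        have g1 := PLd_nonneg L hL0 (dy v p)
        have g2 := PLf_sq L hL1 (dy v p) h10
        refine ⟨mul_nonneg g1 (hD0 p), ?_⟩
        have g3 := hD1 p h6 h7 h9
        calc PLf L (dy v p) ^ 2 * (dx (dy v) p ^ 2 + dx (dx v) p ^ 2)
            ≤ (2 * PLd L (dy v p)) *
              ((1 + A2) * (dx (dy v) p ^ 2 - dx (dx v) p * dy (dy v) p)) :=
              mul_le_mul g2 g3 (by positivity) (by positivity)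
          _ = K * (PLd L (dy v p) * (dx (dy v) p ^ 2 - dx (dx v) p * dy (dy v) p)) := by
              rw [hK]; ring
    have hcF : Continuous F := by
      rw [hF]
      have g1 : Continuous η := hη1.continuous
      have g2 : Continuous (fun p => PLd L (dy v p)) := (PLd_cont L).comp hdyv.continuous
      have g3 : Continuous (fun p => kf al be (dx v p)) := (kf_cont al be).comp hdxv.continuous
      have g4 : Continuous (dx (dy v)) := dx_cont _ hdyv
      have g5 : Continuous (dx (dx v)) := dx_cont _ hdxv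
      have g6 : Continuous (dy (dy v)) := dy_cont _ hdyv
      exact (g1.pow 2).mul ((g2.mul g3).mul ((g4.pow 2).sub (g5.mul g6)))
    have hFc : HasCompactSupport F := by
      refine hηc.mono ?_
      intro p hp
      rw [Function.mem_support] at hp ⊢
      intro h4
      apply hp
      rw [hF]
      simp [h4]
    have hFi : Integrable F := hcF.integrable_of_hasCompactSupport hFc
    have hq1 : Continuous (dx (dx v)) := dx_cont _ hdxv
    have hq2 : Continuous (dx (dy v)) := dx_cont _ hdyv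
    have hle : ∫ p in S, ((qx h (dx (dx u)) p) ^ 2 + (qx h (dx (dy u)) p) ^ 2) ≤
        ∫ p in S, C * F p := by
      rw [← hvxx, ← hvxy]
      refine setIntegral_mono_on ?_ ?_ hSmeas ?_
      · exact ((hq1.pow 2).add (hq2.pow 2)).continuousOn.integrableOn_compact hScomp
      · exact (continuous_const.mul hcF).continuousOn.integrableOn_compact hScomp
      · intro p hp
        obtain ⟨g1, g2⟩ := hSR p hp
        have g1' : |p.1| ≤ R2 := g1.trans hRR2
        have g2' : |p.2| ≤ R2 := g2.trans hRR2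
        have g3 : η p = 1 := hηR p g1 g2
        obtain ⟨g4, g5⟩ := hbox p hp
        have g6 : a1 < dx (dx u) p := by
          have : a1 < (al + q0) / 2 := by rw [hal]; linarith
          linarith
        have g7 : dx (dx u) p < a2 := by
          have : (be + q0) / 2 < a2 := by rw [hbe]; linarith
          linarith
        have g9 := abs_le.1 (H1 h hh0 hh1 p g1' g2').1
        have g10 := (H2 h hh0 hh2 p g1' g2').1
        have g11 : |dx (dy u) p| ≤ S0 := hS0 p hp
        have g12 : c1 ≤ kf al be (dx v p) := by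
          rw [hc1]
          apply kf_lower
          · rw [hal]; linarith
          · rw [hbe]; linarith
          · rw [hvx]; linarith [g9.1]
          · rw [hvx]; linarith [g9.2]
        have g14 : |dy v p| ≤ T := by
          rw [hvy, hTd]
          have h11 : |qx h (dy u) p| ≤
              |dx (dy u) p| + |qx h (dy u) p - dx (dy u) p| := by
            have : qx h (dy u) p = dx (dy u) p + (qx h (dy u) p - dx (dy u) p) := by
              ring
            calc |qx h (dy u) p| = |dx (dy u) p + (qx h (dy u) p - dx (dy u) p)| := by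
                  rw [← this]
              _ ≤ _ := abs_add_le _ _
          linarith
        have g15 : c2 ≤ PLd L (dy v p) := PLd_lower L T hL0 _ g14
        have g16 := hD1 p g1' g2' g7
        have g17 := hD0 p
        rw [hF]
        simp only [g3, one_pow, one_mul]
        have g18 : c2 * c1 ≤ PLd L (dy v p) * kf al be (dx v p) :=
          mul_le_mul g15 g12 hc1p.le (hc2p.le.trans g15)
        have g19 : (1 + A2) = C * (c2 * c1) := by
          rw [hCd, hC0d, hc2]; field_simp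
        calc dx (dx v) p ^ 2 + dx (dy v) p ^ 2
            = dx (dy v) p ^ 2 + dx (dx v) p ^ 2 := add_comm _ _
          _ ≤ (1 + A2) * (dx (dy v) p ^ 2 - dx (dx v) p * dy (dy v) p) := g16
          _ = C * ((c2 * c1) * (dx (dy v) p ^ 2 - dx (dx v) p * dy (dy v) p)) := by
              rw [g19]; ring
          _ ≤ C * (PLd L (dy v p) * kf al be (dx v p) *
              (dx (dy v) p ^ 2 - dx (dx v) p * dy (dy v) p)) :=
              mul_le_mul_of_nonneg_left (mul_le_mul_of_nonneg_right g18 g17) hCp.le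
    refine hle.trans ?_
    have h4 : ∫ p in S, C * F p = C * ∫ p in S, F p := integral_const_mul _ _
    rw [h4]
    have h5 : ∫ p in S, F p ≤ ∫ p, F p :=
      setIntegral_le_integral hFi (Filter.Eventually.of_forall hF0)
    have h6 : ∫ p, F p ≤ 4 * K * M * (E0 / N) :=
      hFE.trans (mul_le_mul_of_nonneg_left hηE (by positivity))
    calc C * ∫ p in S, F p ≤ C * (4 * K * M * (E0 / N)) :=
          mul_le_mul_of_nonneg_left (h5.trans h6) hCp.le
      _ = Bc * (L / N) := by rw [hBc, hCd]; field_simp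
      _ ≤ Bc * (ε / (Bc + 1)) := by
          apply mul_le_mul_of_nonneg_left _ hBc0
          exact final_bound (Bc + 1) ε (Real.log R2) L N (by positivity) hε hlogp
            (by rw [hL, hε1]) hlog2 hN2 hNp
      _ ≤ ε := by
          rw [← mul_div_assoc, div_le_iff₀ (by positivity)]
          nlinarith
  -- conclusion
  have hqc : ∀ (g : ℝ × ℝ → ℝ) (h : ℝ), Continuous g → Continuous (qx h g) := by
    intro g h hg
    unfold qx
    have : Continuous (fun p : ℝ × ℝ => g (p.1 + h, p.2)) := hg.comp (by fun_prop)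
    exact (this.sub hg).div_const h
  have hint : ∀ (g : ℝ × ℝ → ℝ), Continuous g → IntegrableOn g S := fun g hg =>
    hg.continuousOn.integrableOn_compact hScomp
  have T1 := hT (dx (dx u)) (z0.1 - r) (z0.1 + r) (z0.2 - r) (z0.2 + r) hc11 (by
    intro ε hε
    obtain ⟨h0, hh0, H⟩ := claim ε hε
    refine ⟨h0, hh0, fun h h1 h2 => le_trans ?_ (H h h1 h2)⟩
    refine setIntegral_mono (hint _ ((hqc _ h hc11).pow 2))
      (hint _ (((hqc _ h hc11).pow 2).add ((hqc _ h hc12).pow 2))) ?_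
    intro p
    simp only
    linarith [sq_nonneg (qx h (dx (dy u)) p)])
  have T2 := hT (dx (dy u)) (z0.1 - r) (z0.1 + r) (z0.2 - r) (z0.2 + r) hc12 (by
    intro ε hε
    obtain ⟨h0, hh0, H⟩ := claim ε hε
    refine ⟨h0, hh0, fun h h1 h2 => le_trans ?_ (H h h1 h2)⟩
    refine setIntegral_mono (hint _ ((hqc _ h hc12).pow 2))
      (hint _ (((hqc _ h hc11).pow 2).add ((hqc _ h hc12).pow 2))) ?_
    intro p
    simp only
    linarith [sq_nonneg (qx h (dx (dx u)) p)])
  refine ⟨r, hr, ?_⟩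
  intro x x' y hx hx' hy
  rw [abs_lt] at hx hx' hy
  have m1 : x ∈ Ioo (z0.1 - r) (z0.1 + r) := ⟨by linarith, by linarith⟩
  have m2 : x' ∈ Ioo (z0.1 - r) (z0.1 + r) := ⟨by linarith, by linarith⟩
  have m3 : y ∈ Ioo (z0.2 - r) (z0.2 + r) := ⟨by linarith, by linarith⟩
  exact ⟨T1 x x' y m1 m2 m3, T2 x x' y m1 m2 m3⟩

end Pool.Agent.H629R2.EY
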